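import Mathlib
import Pool.Agent.KS6_4.RN.Open

/-!
# Norm attainment on an open set of `L^p(μ, X)` and the Radon-Nikodym property

`X` is a real or complex Banach space, `μ` is any measure (finite or not, with or without atoms) which is not
purely atomic: `C` is a measurable set with `0 < μ C < ∞` which contains no atom. The exponents `p`, `q` are
conjugate. If `X^*` does not have the Radon-Nikodym property and `p < ∞` then the functions `f ∈ L^p(μ, X)` which
do not attain their norm on the unit ball of `L^q(μ, X^*)` are dense in `L^p(μ, X)`; moreover near every `f₀` there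
is such an `f` which differs from `f₀` only on a subset of `C` of measure at most `δ`.
-/

set_option autoImplicit false

open MeasureTheory Set
open scoped ENNReal

namespace Pool.Agent.Results.MP_01d06f_an.AttainmentOnOpenSet

/-- The Radon-Nikodym property (measure spaces in `Type w`): every `ν`-continuous vector measure of
bounded variation on a finite measure space has a Bochner integrable density. -/
def RNP.{w, v} (Y : Type v) [NormedAddCommGroup Y] [NormedSpace ℝ Y] : Prop :=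
  ∀ (W : Type w) [MeasurableSpace W] (ν : Measure W) [IsFiniteMeasure ν]
    (m : VectorMeasure W Y), (∀ A, MeasurableSet A → ν A = 0 → m A = 0) →
    m.variation univ ≠ ∞ →
    ∃ h : W → Y, Integrable h ν ∧ ∀ A, MeasurableSet A → m A = ∫ w in A, h w ∂ν

/-- `f ∈ L^p(μ, X)` attains its norm on the closed unit ball of `L^q(μ, X^*)`. -/
def Attains (𝕜 : Type*) [RCLike 𝕜] {X : Type*} [NormedAddCommGroup X] [NormedSpace 𝕜 X] {Ω : Type*}
    [MeasurableSpace Ω] {μ : Measure Ω} {p : ℝ≥0∞} (q : ℝ≥0∞) (f : Lp X p μ) : Prop :=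
  ∃ g : Lp (StrongDual 𝕜 X) q μ, ‖g‖ ≤ 1 ∧ ∫ ω, g ω (f ω) ∂μ = ((‖f‖ : ℝ) : 𝕜)

/-- `C` is a measurable set of positive finite measure without atoms. -/
def NonAtomicOn {Ω : Type*} [MeasurableSpace Ω] (μ : Measure Ω) (C : Set Ω) : Prop :=
  MeasurableSet C ∧ 0 < μ C ∧ μ C < ∞ ∧
    ∀ A ⊆ C, MeasurableSet A → 0 < μ A → ∃ B ⊆ A, MeasurableSet B ∧ 0 < μ B ∧ μ B < μ A

universe u v w

/-- Let `X` be a real or complex Banach space, `μ` a measure, `C` a set of positive finite measure without atoms,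
`p` and `q` conjugate exponents.

(1) Let `p < ∞`. If some nonempty open subset of `L^p(μ, X)` consists of functions which attain their norm on the
closed unit ball of `L^q(μ, X^*)`, then `X^*` has the Radon-Nikodym property. In other words: if `X^*` does not have
it, then the functions which do not attain their norm are dense in `L^p(μ, X)`.

(2) Let `p < ∞`, `f₀ ∈ L^p(μ, X)` and `δ > 0`. It is even enough that all `f` with `‖f - f₀‖ < δ` which are equal to
`f₀` outside of a subset of `C` of measure at most `δ` attain their norm.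

(3) For all `1 ≤ p ≤ ∞` it is enough that all `f ∈ L^p(μ, X)` which vanish outside of `C` attain their norm. -/
theorem result {𝕜 : Type*} [RCLike 𝕜] (X : Type u) [NormedAddCommGroup X] [NormedSpace 𝕜 X]
    [CompleteSpace X] {Ω : Type v} [MeasurableSpace Ω] (μ : Measure Ω) (C : Set Ω)
    (hμ : NonAtomicOn μ C) (p q : ℝ≥0∞) [Fact (1 ≤ p)] [Fact (1 ≤ q)] (hpq : p⁻¹ + q⁻¹ = 1) :
    (p ≠ ∞ → ∀ U : Set (Lp X p μ), IsOpen U → U.Nonempty → (∀ f ∈ U, Attains 𝕜 q f) →
      RNP.{w} (StrongDual 𝕜 X)) ∧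
    (p ≠ ∞ → ¬ RNP.{w} (StrongDual 𝕜 X) → Dense {f : Lp X p μ | ¬ Attains 𝕜 q f}) ∧
    (p ≠ ∞ → ∀ (f₀ : Lp X p μ) (δ : ℝ), 0 < δ →
      (∀ f : Lp X p μ, ‖f - f₀‖ < δ →
        (∃ B ⊆ C, MeasurableSet B ∧ μ B ≤ ENNReal.ofReal δ ∧ ∀ᵐ ω ∂μ, ω ∉ B → f ω = f₀ ω) →
        Attains 𝕜 q f) → RNP.{w} (StrongDual 𝕜 X)) ∧
    ((∀ f : Lp X p μ, (∀ᵐ ω ∂μ, ω ∉ C → f ω = 0) → Attains 𝕜 q f) → RNP.{w} (StrongDual 𝕜 X)) := by
  let : NormedSpace ℝ X := NormedSpace.restrictScalars ℝ 𝕜 X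
  have : IsScalarTower ℝ 𝕜 X := IsScalarTower.of_algebraMap_smul fun r x => rfl
  obtain ⟨hC, h0, hfin, hat⟩ := hμ
  have main : p ≠ ∞ → ∀ (f₀ : Lp X p μ) (δ : ℝ), 0 < δ →
      (∀ f : Lp X p μ, ‖f - f₀‖ < δ →
        (∃ B ⊆ C, MeasurableSet B ∧ μ B ≤ ENNReal.ofReal δ ∧ ∀ᵐ ω ∂μ, ω ∉ B → f ω = f₀ ω) →
        Attains 𝕜 q f) → RNP.{w} (StrongDual 𝕜 X) := fun hp f₀ δ hδ h =>
    Pool.Agent.KS6_4.RN.main hC h0 hfin hat hp hpq f₀ hδ h
  have opn : p ≠ ∞ → ∀ U : Set (Lp X p μ), IsOpen U → U.Nonempty → (∀ f ∈ U, Attains 𝕜 q f) →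
      RNP.{w} (StrongDual 𝕜 X) := by
    rintro hp U hU ⟨f₀, hf₀⟩ h
    obtain ⟨δ, hδ, hb⟩ := Metric.isOpen_iff.1 hU f₀ hf₀
    refine main hp f₀ δ hδ fun f hf _ => h f (hb ?_)
    rw [Metric.mem_ball, dist_eq_norm]
    exact hf
  refine ⟨opn, fun hp hR => ?_, main, fun h => Pool.Agent.KS6_4.RN.main_all hC h0 hfin hat hpq h⟩
  by_contra hd
  obtain ⟨f₀, hf₀⟩ := not_forall.1 hd
  apply hR
  refine opn hp (closure {f : Lp X p μ | ¬ Attains 𝕜 q f})ᶜ isClosed_closure.isOpen_compl ⟨f₀, hf₀⟩ fun f hf => ?_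
  by_contra hn
  exact hf (subset_closure hn)

end Pool.Agent.Results.MP_01d06f_an.AttainmentOnOpenSet
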